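import Mathlib

/-!
# Nef systems: the nef cones of the small modifications of a klt pair

Fix a `ℚ`-factorial klt pair `(X, Δ)` and a projective morphism `X → S`. The real vector space `V`
is `N¹(X/S)`; for a small modification `X'` of `X` over `S` strict transform identifies `N¹(X'/S)`
with `V`. A `NefSystem` records the pseudo-effective cone, the nef cones of the `ℚ`-factorial small
modifications `X'` of `X` over `S` with `(X', Δ')` klt, the multiplicities of pull-backs along
divisors over `X`, the negativity lemma and the finiteness of models for big boundaries.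
-/

set_option autoImplicit false

namespace Pool.Agent.Work.MP_89a3f8

open Set Filter Topology

/-- The nef cones of the small modifications of a klt pair `(X, Δ)` over `S`. -/
structure NefSystem (V : Type) [NormedAddCommGroup V] [NormedSpace ℝ V] where
  /-- the `ℚ`-factorial small modifications `X'` of `X` over `S` with `(X', Δ')` klt -/
  Model : Type
  /-- the prime divisors over `X` -/
  Val : Type
  /-- the class of `K_X + Δ` -/
  kappa : V
  /-- the pseudo-effective cone -/
  eff : Set V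
  eff_closed : IsClosed eff
  eff_add : ∀ a ∈ eff, ∀ b ∈ eff, a + b ∈ eff
  eff_smul : ∀ t : ℝ, 0 ≤ t → ∀ a ∈ eff, t • a ∈ eff
  /-- the nef cone of a model -/
  nef : Model → Set V
  nef_closed : ∀ X', IsClosed (nef X')
  nef_add : ∀ X', ∀ a ∈ nef X', ∀ b ∈ nef X', a + b ∈ nef X'
  nef_smul : ∀ X', ∀ t : ℝ, 0 ≤ t → ∀ a ∈ nef X', t • a ∈ nef X'
  /-- there are ample classes -/
  ample_nonempty : ∀ X', (interior (nef X')).Nonempty
  nef_subset_eff : ∀ X', nef X' ⊆ eff
  /-- `mult X' D v` is the coefficient at `v` of `q^* D' - p^* D`, where `D'` is the strict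
  transform of `D` on `X'` and `p`, `q` are the projections of a common resolution to `X`, `X'` -/
  mult : Model → V →ₗ[ℝ] (Val → ℝ)
  /-- negativity lemma: the pull-back of `D` is smallest on a model where `D` is nef -/
  negativity : ∀ X' X'' : Model, ∀ D ∈ nef X', mult X' D ≤ mult X'' D
  /-- if the pull-backs from two models agree, `D` is nef on both or on none -/
  nef_of_mult_eq : ∀ X' X'' : Model, ∀ D ∈ nef X', mult X' D = mult X'' D → D ∈ nef X''
  /-- finiteness of models for big boundaries (Birkar, Cascini, Hacon, McKernan) -/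
  finite_models : ∀ X' : Model, ∀ N ∈ nef X', N ∈ interior eff → ∀ t : ℝ, 0 < t →
    ∃ O ∈ 𝓝 (kappa + t • N), {X'' : Model | (nef X'' ∩ O).Nonempty}.Finite

variable {V : Type} [NormedAddCommGroup V] [NormedSpace ℝ V]

/-- `X' ⇢ X''` is the `(K + Δ)`-flip of the extremal ray spanned by `R`: the two nef cones meet
exactly along a set which spans the hyperplane `R = 0`, `R` is nonnegative on the nef cone of `X'`,
nonpositive on the nef cone of `X''`, and negative on `K + Δ`. -/
def NefSystem.IsFlip (M : NefSystem V) (R : V →ₗ[ℝ] ℝ) (X' X'' : M.Model) : Prop :=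
  Submodule.span ℝ (M.nef X' ∩ M.nef X'') = LinearMap.ker R ∧
    (∀ D ∈ M.nef X', 0 ≤ R D) ∧ (∀ D ∈ M.nef X'', R D ≤ 0) ∧ R M.kappa < 0

/-- An infinite sequence of flips `X 0 ⇢ X 1 ⇢ ⋯` with extremal rays `R 0, R 1, …`. -/
def NefSystem.IsFlipSequence (M : NefSystem V) (X : ℕ → M.Model) (R : ℕ → V →ₗ[ℝ] ℝ) : Prop :=
  ∀ i, M.IsFlip (R i) (X i) (X (i + 1))

namespace NefSystem

variable (M : NefSystem V)

theorem R_ne_zero {R : V →ₗ[ℝ] ℝ} {X' X'' : M.Model} (h : M.IsFlip R X' X'') : R ≠ 0 := by
  rintro rfl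
  have := h.2.2.2
  simp at this

/-- a linear form which is nonnegative on a cone and vanishes at an interior point is zero -/
theorem pos_of_interior {C : Set V} {R : V →ₗ[ℝ] ℝ} (hR : R ≠ 0)
    (h0 : ∀ D ∈ C, 0 ≤ R D) {D : V} (hD : D ∈ interior C) : 0 < R D := by
  obtain ⟨w, hw⟩ : ∃ w, R w ≠ 0 := by
    by_contra hcon
    push Not at hcon
    exact hR (LinearMap.ext fun x => by simpa using hcon x)
  obtain ⟨w', hw'⟩ : ∃ w', R w' < 0 := by
    rcases lt_or_gt_of_ne hw with h | h
    · exact ⟨w, h⟩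
    · exact ⟨-w, by simpa using h⟩
  have hcont : Continuous fun t : ℝ => D + t • w' := by fun_prop
  have hmem : {t : ℝ | D + t • w' ∈ interior C} ∈ 𝓝 (0 : ℝ) :=
    (isOpen_interior.preimage hcont).mem_nhds (by simpa using hD)
  obtain ⟨ε, hε, hball⟩ := Metric.mem_nhds_iff.1 hmem
  have h1 : D + (ε / 2) • w' ∈ interior C := by
    apply hball
    rw [Metric.mem_ball, Real.dist_eq, sub_zero, abs_of_pos (by positivity)]
    linarith
  have h2 := h0 _ (interior_subset h1)
  rw [map_add, map_smul, smul_eq_mul] at h2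
  have h3 : (ε / 2) * R w' < 0 := mul_neg_of_pos_of_neg (by positivity) hw'
  linarith

/-- The multiplicities change along a flip by `R ⊗ e` with `e ≥ 0`, `e ≠ 0`. -/
theorem flip_mult {R : V →ₗ[ℝ] ℝ} {X' X'' : M.Model} (h : M.IsFlip R X' X'') :
    ∃ e : M.Val → ℝ, 0 ≤ e ∧ e ≠ 0 ∧ ∀ D, M.mult X'' D = M.mult X' D + R D • e := by
  obtain ⟨hspan, hpos, hneg, hk⟩ := h
  have hR : R ≠ 0 := M.R_ne_zero ⟨hspan, hpos, hneg, hk⟩
  set L : V →ₗ[ℝ] (M.Val → ℝ) := M.mult X'' - M.mult X' with hL
  have hker : ∀ D, R D = 0 → L D = 0 := by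
    intro D hD
    have hD' : D ∈ Submodule.span ℝ (M.nef X' ∩ M.nef X'') := by
      rw [hspan]; exact hD
    have hle : Submodule.span ℝ (M.nef X' ∩ M.nef X'') ≤ LinearMap.ker L := by
      rw [Submodule.span_le]
      rintro x ⟨hx1, hx2⟩
      have a1 := M.negativity X' X'' x hx1
      have a2 := M.negativity X'' X' x hx2
      simp only [SetLike.mem_coe, LinearMap.mem_ker, hL, LinearMap.sub_apply]
      rw [le_antisymm a1 a2, sub_self]
    exact hle hD'
  set D0 : V := (R M.kappa)⁻¹ • M.kappa with hD0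
  have hRD0 : R D0 = 1 := by
    rw [hD0, map_smul, smul_eq_mul, inv_mul_cancel₀ hk.ne]
  have hLD : ∀ D, L D = R D • L D0 := by
    intro D
    have h1 : L (D - R D • D0) = 0 := hker _ (by
      rw [map_sub, map_smul, smul_eq_mul, hRD0]; ring)
    rw [map_sub, map_smul, sub_eq_zero] at h1
    exact h1
  obtain ⟨A, hA⟩ := M.ample_nonempty X'
  have hRA : 0 < R A := pos_of_interior hR hpos hA
  refine ⟨L D0, ?_, ?_, ?_⟩
  · intro v
    have h1 := M.negativity X' X'' A (interior_subset hA) v
    have h2 : L A v = R A * L D0 v := by rw [hLD A]; rfl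
    have h3 : L A v = M.mult X'' A v - M.mult X' A v := rfl
    have h4 : 0 ≤ R A * L D0 v := by rw [← h2, h3]; linarith
    exact nonneg_of_mul_nonneg_right h4 hRA
  · intro h0
    have hL0 : ∀ D, M.mult X' D = M.mult X'' D := by
      intro D
      have h1 := hLD D
      rw [h0, smul_zero] at h1
      have h2 : M.mult X'' D - M.mult X' D = 0 := h1
      exact (sub_eq_zero.1 h2).symm
    have h1 := M.nef_of_mult_eq X' X'' A (interior_subset hA) (hL0 A)
    have h2 := hneg A h1
    linarith
  · intro D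
    have h1 : M.mult X'' D - M.mult X' D = R D • L D0 := hLD D
    rw [← h1]; abel

/-- The common facet: a class which is nef on `X'` and trivial on the flipping ray is nef on `X''`. -/
theorem flip_facet {R : V →ₗ[ℝ] ℝ} {X' X'' : M.Model} (h : M.IsFlip R X' X'') {D : V}
    (hD : D ∈ M.nef X') (hR : R D = 0) : D ∈ M.nef X'' := by
  obtain ⟨e, -, -, he⟩ := M.flip_mult h
  apply M.nef_of_mult_eq X' X'' D hD
  rw [he, hR, zero_smul, add_zero]

theorem mult_kappa_lt {R : V →ₗ[ℝ] ℝ} {X' X'' : M.Model} (h : M.IsFlip R X' X'') :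
    M.mult X'' M.kappa < M.mult X' M.kappa := by
  obtain ⟨e, he0, hne, he⟩ := M.flip_mult h
  have hk := h.2.2.2
  rw [he M.kappa]
  refine lt_of_le_of_ne ?_ ?_
  · intro v
    have h1 : 0 ≤ e v := he0 v
    have h2 : R M.kappa * e v ≤ 0 := mul_nonpos_of_nonpos_of_nonneg hk.le h1
    simp only [Pi.add_apply, Pi.smul_apply, smul_eq_mul]
    linarith
  · intro heq
    apply hne
    have h1 : R M.kappa • e = 0 := by
      have := heq
      rwa [add_eq_left] at this
    rcases smul_eq_zero.1 h1 with h2 | h2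
    · exact absurd h2 hk.ne
    · exact h2

theorem seq_mult_strictAnti {X : ℕ → M.Model} {R : ℕ → V →ₗ[ℝ] ℝ} (h : M.IsFlipSequence X R) :
    StrictAnti fun i => M.mult (X i) M.kappa :=
  strictAnti_nat_of_succ_lt fun i => M.mult_kappa_lt (h i)

theorem seq_injective {X : ℕ → M.Model} {R : ℕ → V →ₗ[ℝ] ℝ} (h : M.IsFlipSequence X R) :
    Function.Injective X := by
  intro i j hij
  apply (M.seq_mult_strictAnti h).injective
  simp only
  rw [hij]

/-- Nef cones never move backwards: if `N` is nef on `X i` and `i < j` then `N - s κ`, `s > 0`, is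
not nef on `X j`. -/
theorem seq_mono {X : ℕ → M.Model} {R : ℕ → V →ₗ[ℝ] ℝ} (h : M.IsFlipSequence X R) {i j : ℕ}
    (hij : i < j) {N : V} (hN : N ∈ M.nef (X i)) {s : ℝ} (hs : 0 < s) :
    N - s • M.kappa ∉ M.nef (X j) := by
  intro hM
  have h1 := M.negativity (X j) (X i) _ hM
  have h2 := M.negativity (X i) (X j) _ hN
  have hlt : M.mult (X j) M.kappa < M.mult (X i) M.kappa := M.seq_mult_strictAnti h hij
  apply hlt.not_ge
  intro v
  have h1v := h1 v
  have h2v := h2 v
  rw [map_sub, map_smul, map_sub, map_smul] at h1v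
  simp only [Pi.sub_apply, Pi.smul_apply, smul_eq_mul] at h1v
  have : s * M.mult (X i) M.kappa v ≤ s * M.mult (X j) M.kappa v := by linarith
  exact le_of_mul_le_mul_left this hs

/-- A class which is ample on `X i` is not nef on `X j`, `i < j`. -/
theorem seq_ample_not_nef {X : ℕ → M.Model} {R : ℕ → V →ₗ[ℝ] ℝ} (h : M.IsFlipSequence X R)
    {i j : ℕ} (hij : i < j) {N : V} (hN : N ∈ interior (M.nef (X i))) : N ∉ M.nef (X j) := by
  intro hM
  have hcont : Continuous fun t : ℝ => N + t • M.kappa := by fun_prop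
  have hmem : {t : ℝ | N + t • M.kappa ∈ interior (M.nef (X i))} ∈ 𝓝 (0 : ℝ) :=
    (isOpen_interior.preimage hcont).mem_nhds (by simpa using hN)
  obtain ⟨ε, hε, hball⟩ := Metric.mem_nhds_iff.1 hmem
  have h1 : N + (ε / 2) • M.kappa ∈ interior (M.nef (X i)) := by
    apply hball
    rw [Metric.mem_ball, Real.dist_eq, sub_zero, abs_of_pos (by positivity)]
    linarith
  have h2 := M.seq_mono h hij (interior_subset h1) (s := ε / 2) (by positivity)
  apply h2
  have : N + (ε / 2) • M.kappa - (ε / 2) • M.kappa = N := by abel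
  rwa [this]

end NefSystem

end Pool.Agent.Work.MP_89a3f8
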