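import Mathlib

/-!
# Sequences of open convex cones in the plane which leave every compact set of their union
-/

set_option autoImplicit false

namespace Pool.Agent.Work.MP_89a3f8

open Set Filter Topology

/-- A sequence of bounded intervals, consecutive ones meeting, every point of whose union has a
neighbourhood met by finitely many of them, shrinks to one end point of the union. -/
theorem interval_lemma (J : ℕ → Set ℝ) (B : ℝ) (hord : ∀ k, (J k).OrdConnected)
    (hcons : ∀ k, (J k ∩ J (k + 1)).Nonempty) (hB : ∀ k, ∀ x ∈ J k, |x| ≤ B)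
    (hLF : ∀ j, ∀ y ∈ J j, ∃ δ : ℝ, 0 < δ ∧ ∃ i0, ∀ k, i0 ≤ k → ∀ x ∈ J k, δ ≤ |x - y|) :
    ∃ s : ℝ, |s| ≤ B ∧ (∀ δ : ℝ, 0 < δ → ∃ i0, ∀ k, i0 ≤ k → ∀ x ∈ J k, |x - s| < δ) ∧
      ((∀ k, ∀ x ∈ J k, x ≤ s) ∨ (∀ k, ∀ x ∈ J k, s ≤ x)) := by
  set U : Set ℝ := ⋃ k, J k with hU
  have hmemU : ∀ k, ∀ x ∈ J k, x ∈ U := fun k x hx => mem_iUnion.2 ⟨k, hx⟩
  have hne : ∀ k, (J k).Nonempty := fun k => (hcons k).mono inter_subset_left
  -- the union is an interval
  have hUord : U.OrdConnected := by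
    -- partial unions
    have hpart : ∀ n, (⋃ k ∈ Finset.range (n + 1), J k).OrdConnected ∧
        J n ⊆ ⋃ k ∈ Finset.range (n + 1), J k := by
      intro n
      have hsub : J n ⊆ ⋃ k ∈ Finset.range (n + 1), J k := by
        intro x hx
        exact mem_iUnion₂.2 ⟨n, Finset.mem_range.2 (Nat.lt_succ_self n), hx⟩
      refine ⟨?_, hsub⟩
      clear hsub
      induction n with
      | zero =>
        have : (⋃ k ∈ Finset.range (0 + 1), J k) = J 0 := by
          ext x
          simp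
        rw [this]
        exact hord 0
      | succ n ih =>
        have heq : (⋃ k ∈ Finset.range (n + 1 + 1), J k) =
            (⋃ k ∈ Finset.range (n + 1), J k) ∪ J (n + 1) := by
          ext x
          simp only [mem_iUnion, Finset.mem_range, mem_union, exists_prop]
          constructor
          · rintro ⟨k, hk, hx⟩
            rcases Nat.lt_succ_iff_lt_or_eq.1 hk with h | h
            · exact Or.inl ⟨k, h, hx⟩
            · exact Or.inr (h ▸ hx)
          · rintro (⟨k, hk, hx⟩ | hx)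
            · exact ⟨k, by omega, hx⟩
            · exact ⟨n + 1, by omega, hx⟩
        rw [heq]
        rw [← isPreconnected_iff_ordConnected] at ih ⊢
        obtain ⟨z, hz1, hz2⟩ := hcons n
        refine IsPreconnected.union z ?_ hz2 ih (hord (n + 1)).isPreconnected
        exact mem_iUnion₂.2 ⟨n, Finset.mem_range.2 (Nat.lt_succ_self n), hz1⟩
    constructor
    intro x hx y hy z hz
    obtain ⟨i, hi⟩ := mem_iUnion.1 hx
    obtain ⟨j, hj⟩ := mem_iUnion.1 hy
    have h1 : x ∈ ⋃ k ∈ Finset.range (max i j + 1), J k :=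
      mem_iUnion₂.2 ⟨i, Finset.mem_range.2 (by omega), hi⟩
    have h2 : y ∈ ⋃ k ∈ Finset.range (max i j + 1), J k :=
      mem_iUnion₂.2 ⟨j, Finset.mem_range.2 (by omega), hj⟩
    have h3 := (hpart (max i j)).1.out h1 h2 hz
    obtain ⟨k, -, hk⟩ := mem_iUnion₂.1 h3
    exact hmemU k z hk
  -- every point of the union is eventually on one side
  have hside : ∀ y ∈ U, ∃ δ : ℝ, 0 < δ ∧ ∃ i0, (∀ k, i0 ≤ k → ∀ x ∈ J k, y + δ ≤ x) ∨
      (∀ k, i0 ≤ k → ∀ x ∈ J k, x ≤ y - δ) := by
    intro y hy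
    obtain ⟨j, hj⟩ := mem_iUnion.1 hy
    obtain ⟨δ, hδ, i0, hi0⟩ := hLF j y hj
    refine ⟨δ, hδ, i0, ?_⟩
    have hdich : ∀ k, i0 ≤ k → (∀ x ∈ J k, y + δ ≤ x) ∨ (∀ x ∈ J k, x ≤ y - δ) := by
      intro k hk
      by_contra hcon
      push Not at hcon
      obtain ⟨⟨x1, hx1, h1⟩, ⟨x2, hx2, h2⟩⟩ := hcon
      have a1 := hi0 k hk x1 hx1
      have a2 := hi0 k hk x2 hx2
      have b1 : x1 ≤ y := by
        by_contra hc
        push Not at hc
        rw [abs_of_pos (by linarith)] at a1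
        linarith
      have b2 : y ≤ x2 := by
        by_contra hc
        push Not at hc
        rw [abs_of_neg (by linarith)] at a2
        linarith
      have hy' : y ∈ J k := (hord k).out hx1 hx2 ⟨b1, b2⟩
      have := hi0 k hk y hy'
      rw [sub_self, abs_zero] at this
      linarith
    rcases hdich i0 le_rfl with h0 | h0
    · left
      intro k hk
      induction k, hk using Nat.le_induction with
      | base => exact h0
      | succ k hk ih =>
        rcases hdich (k + 1) (by omega) with h | h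
        · exact h
        · obtain ⟨z, hz1, hz2⟩ := hcons k
          have a1 := ih z hz1
          have a2 := h z hz2
          linarith
    · right
      intro k hk
      induction k, hk using Nat.le_induction with
      | base => exact h0
      | succ k hk ih =>
        rcases hdich (k + 1) (by omega) with h | h
        · obtain ⟨z, hz1, hz2⟩ := hcons k
          have a1 := ih z hz1
          have a2 := h z hz2
          linarith
        · exact h
  have hUne : U.Nonempty := by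
    obtain ⟨x, hx⟩ := hne 0
    exact ⟨x, hmemU 0 x hx⟩
  have hUB : ∀ x ∈ U, |x| ≤ B := by
    intro x hx
    obtain ⟨k, hk⟩ := mem_iUnion.1 hx
    exact hB k x hk
  have hbddA : BddAbove U := ⟨B, fun x hx => (abs_le.1 (hUB x hx)).2⟩
  have hbddB : BddBelow U := ⟨-B, fun x hx => (abs_le.1 (hUB x hx)).1⟩
  by_cases hA : ∀ y ∈ U, ∃ i0, ∀ k, i0 ≤ k → ∀ x ∈ J k, y < x
  · refine ⟨sSup U, ?_, ?_, Or.inl fun k x hx => le_csSup hbddA (hmemU k x hx)⟩
    · obtain ⟨x, hx⟩ := hUne
      rw [abs_le]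
      exact ⟨(abs_le.1 (hUB x hx)).1.trans (le_csSup hbddA hx),
        csSup_le ⟨x, hx⟩ fun x hx => (abs_le.1 (hUB x hx)).2⟩
    · intro δ hδ
      obtain ⟨y, hy, hy2⟩ := exists_lt_of_lt_csSup hUne (show sSup U - δ < sSup U by linarith)
      obtain ⟨i0, hi0⟩ := hA y hy
      refine ⟨i0, fun k hk x hx => ?_⟩
      have h1 := hi0 k hk x hx
      have h2 := le_csSup hbddA (hmemU k x hx)
      rw [abs_lt]
      constructor <;> linarith
  · -- some point is eventually on the right; then all are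
    push Not at hA
    obtain ⟨y1, hy1, hy1'⟩ := hA
    have hy1B : ∃ i0, ∀ k, i0 ≤ k → ∀ x ∈ J k, x < y1 := by
      obtain ⟨δ, hδ, i0, h | h⟩ := hside y1 hy1
      · obtain ⟨k, hk, x, hx, hxy⟩ := hy1' i0
        have := h k hk x hx
        linarith
      · exact ⟨i0, fun k hk x hx => by have := h k hk x hx; linarith⟩
    have hall : ∀ y ∈ U, ∃ i0, ∀ k, i0 ≤ k → ∀ x ∈ J k, x < y := by
      intro y hy
      by_contra hcon
      push Not at hcon
      have hyA : ∃ i0, ∀ k, i0 ≤ k → ∀ x ∈ J k, y < x := by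
        obtain ⟨δ, hδ, i0, h | h⟩ := hside y hy
        · exact ⟨i0, fun k hk x hx => by have := h k hk x hx; linarith⟩
        · obtain ⟨k, hk, x, hx, hxy⟩ := hcon i0
          have := h k hk x hx
          linarith
      -- the supremum of the points which are eventually on the left
      set A : Set ℝ := {z | z ∈ U ∧ ∃ i0, ∀ k, i0 ≤ k → ∀ x ∈ J k, z < x} with hAdef
      have hyAm : y ∈ A := ⟨hy, hyA⟩
      have hAub : ∀ z ∈ A, z < y1 := by
        rintro z ⟨hz, i1, hi1⟩
        obtain ⟨i2, hi2⟩ := hy1B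
        obtain ⟨x, hx⟩ := hne (max i1 i2)
        exact (hi1 _ (le_max_left _ _) x hx).trans (hi2 _ (le_max_right _ _) x hx)
      have hAbdd : BddAbove A := ⟨y1, fun z hz => (hAub z hz).le⟩
      set s := sSup A with hs
      have hys : y ≤ s := le_csSup hAbdd hyAm
      have hsy1 : s ≤ y1 := csSup_le ⟨y, hyAm⟩ fun z hz => (hAub z hz).le
      have hsU : s ∈ U := hUord.out hy hy1 ⟨hys, hsy1⟩
      obtain ⟨δ, hδ, i0, h | h⟩ := hside s hsU
      · -- `s` is eventually on the left, hence `s < y1`, and points just above `s` are in `A`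
        have hsA : s ∈ A := ⟨hsU, i0, fun k hk x hx => by have := h k hk x hx; linarith⟩
        have hslt := hAub s hsA
        have hz1 : s < min (s + δ / 2) y1 := lt_min (by linarith) hslt
        have hzU : min (s + δ / 2) y1 ∈ U :=
          hUord.out hsU hy1 ⟨hz1.le, min_le_right _ _⟩
        have hzA : min (s + δ / 2) y1 ∈ A := by
          refine ⟨hzU, i0, fun k hk x hx => ?_⟩
          have h1 := h k hk x hx
          have h2 := min_le_left (s + δ / 2) y1
          linarith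
        have := le_csSup hAbdd hzA
        linarith
      · -- `s` is eventually on the right; some point of `A` is `> s - δ`
        obtain ⟨z, hz, hz2⟩ := exists_lt_of_lt_csSup ⟨y, hyAm⟩ (show s - δ < s by linarith)
        obtain ⟨hzU, i1, hi1⟩ := hz
        obtain ⟨x, hx⟩ := hne (max i0 i1)
        have h1 := h _ (le_max_left _ _) x hx
        have h2 := hi1 _ (le_max_right _ _) x hx
        linarith
    refine ⟨sInf U, ?_, ?_, Or.inr fun k x hx => csInf_le hbddB (hmemU k x hx)⟩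
    · obtain ⟨x, hx⟩ := hUne
      rw [abs_le]
      exact ⟨le_csInf ⟨x, hx⟩ fun x hx => (abs_le.1 (hUB x hx)).1,
        (csInf_le hbddB hx).trans (abs_le.1 (hUB x hx)).2⟩
    · intro δ hδ
      obtain ⟨y, hy, hy2⟩ := exists_lt_of_csInf_lt hUne (show sInf U < sInf U + δ by linarith)
      obtain ⟨i0, hi0⟩ := hall y hy
      refine ⟨i0, fun k hk x hx => ?_⟩
      have h1 := hi0 k hk x hx
      have h2 := csInf_le hbddB (hmemU k x hx)
      rw [abs_lt]
      constructor <;> linarith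

/-- Rational parametrisation of the rays different from the ray through `(1, 0)`. -/
def gpt (x : ℝ) : ℝ × ℝ := (x ^ 2 - 1, 2 * x)

theorem exists_gpt {w : ℝ × ℝ} (hw : ¬ (0 ≤ w.1 ∧ w.2 = 0)) :
    ∃ x c : ℝ, 0 < c ∧ w = c • gpt x := by
  by_cases h2 : w.2 = 0
  · have h1 : w.1 < 0 := by
      by_contra hcon
      push Not at hcon
      exact hw ⟨hcon, h2⟩
    refine ⟨0, -w.1, by linarith, ?_⟩
    ext
    · simp [gpt]
    · simp [gpt, h2]
  · set ρ : ℝ := Real.sqrt (w.1 ^ 2 + w.2 ^ 2) with hρ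
    have hρ2 : ρ ^ 2 = w.1 ^ 2 + w.2 ^ 2 := Real.sq_sqrt (by positivity)
    have hw2 : 0 < w.2 ^ 2 := by positivity
    have hρ0 : 0 ≤ ρ := Real.sqrt_nonneg _
    have hpos : 0 < w.1 + ρ := by
      have h1 : |w.1| < ρ := by
        rw [← Real.sqrt_sq_eq_abs]
        exact Real.sqrt_lt_sqrt (by positivity) (by linarith)
      have h3 := neg_abs_le w.1
      linarith
    refine ⟨(w.1 + ρ) / w.2, w.2 ^ 2 / (2 * (w.1 + ρ)), by positivity, ?_⟩
    ext
    · simp only [gpt, Prod.smul_mk, smul_eq_mul]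
      have e : (w.1 + ρ) ^ 2 - w.2 ^ 2 = 2 * w.1 * (w.1 + ρ) := by nlinarith
      field_simp
      linear_combination -e
    · simp only [gpt, Prod.smul_mk, smul_eq_mul]
      field_simp

theorem gpt_identity (x y z : ℝ) :
    ((y - x) * (x * y + 1)) • gpt z =
      ((y - z) * (z * y + 1)) • gpt x + ((z - x) * (x * z + 1)) • gpt y := by
  ext
  · simp only [gpt, Prod.smul_mk, smul_eq_mul, Prod.mk_add_mk]; ring
  · simp only [gpt, Prod.smul_mk, smul_eq_mul, Prod.mk_add_mk]; ring

theorem gpt_identity' (x y : ℝ) :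
    ((x - y) * (x * y + 1)) • ((1, 0) : ℝ × ℝ) = y • gpt x + (-x) • gpt y := by
  ext
  · simp only [gpt, Prod.smul_mk, smul_eq_mul, Prod.mk_add_mk]; ring
  · simp only [gpt, Prod.smul_mk, smul_eq_mul, Prod.mk_add_mk]; ring

theorem half_le_norm_gpt (x : ℝ) : 1 / 2 ≤ ‖gpt x‖ := by
  have h1 : ‖(gpt x).1‖ ≤ ‖gpt x‖ := norm_fst_le _
  have h2 : ‖(gpt x).2‖ ≤ ‖gpt x‖ := norm_snd_le _
  simp only [gpt, Real.norm_eq_abs] at h1 h2 ⊢
  by_cases hx : 1 / 4 ≤ |x|
  · have : |2 * x| = 2 * |x| := by rw [abs_mul, abs_of_pos (by norm_num : (0:ℝ) < 2)]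
    rw [this] at h2
    linarith
  · push Not at hx
    have h3 : x ^ 2 ≤ 1 / 16 := by
      rw [← sq_abs]
      have := abs_nonneg x
      nlinarith
    have h4 : 1 - x ^ 2 ≤ |x ^ 2 - 1| := by
      rw [abs_sub_comm]; exact le_abs_self _
    linarith

theorem continuous_gpt : Continuous gpt := by
  unfold gpt
  fun_prop

/-- Planar open convex cones `P 0, P 1, …`, consecutive ones meeting, such that every point of their
union has a neighbourhood met by finitely many of them, shrink to a ray, from one side. -/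
theorem planar (P : ℕ → Set (ℝ × ℝ)) (hopen : ∀ k, IsOpen (P k)) (hconv : ∀ k, Convex ℝ (P k))
    (hcone : ∀ k, ∀ c : ℝ, 0 < c → ∀ w ∈ P k, c • w ∈ P k)
    (hcons : ∀ k, (P k ∩ P (k + 1)).Nonempty) (h0 : ((1, 0) : ℝ × ℝ) ∈ P 0)
    (hLF : ∀ j, ∀ w ∈ P j, ∃ O ∈ 𝓝 w, ∃ i0, ∀ k, i0 ≤ k → ∀ w' ∈ P k, w' ∉ O) :
    ∃ (w₀ : ℝ × ℝ) (a b : ℝ), w₀ ≠ 0 ∧ (a ≠ 0 ∨ b ≠ 0) ∧ a * w₀.1 + b * w₀.2 = 0 ∧
      (∃ j0, ∀ k, j0 ≤ k → ∀ w ∈ P k, 0 ≤ a * w.1 + b * w.2) ∧
      ∀ ε : ℝ, 0 < ε → ∃ i0, ∀ k, i0 ≤ k → ∀ w ∈ P k, ∃ c : ℝ, 0 ≤ c ∧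
        ‖w - c • w₀‖ ≤ ε * ‖w‖ := by
  have hadd : ∀ k, ∀ w ∈ P k, ∀ w' ∈ P k, w + w' ∈ P k := by
    intro k w hw w' hw'
    have h1 := hconv k hw hw' (by norm_num : (0:ℝ) ≤ 1 / 2) (by norm_num : (0:ℝ) ≤ 1 / 2)
      (by norm_num)
    have h2 := hcone k 2 (by norm_num) _ h1
    rwa [smul_add, smul_smul, smul_smul, mul_one_div_cancel (by norm_num : (2:ℝ) ≠ 0), one_smul,
      one_smul] at h2
  obtain ⟨O, hO, i1, hi1⟩ := hLF 0 _ h0
  have hnot1 : ∀ k, i1 ≤ k → ((1, 0) : ℝ × ℝ) ∉ P k := fun k hk h =>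
    hi1 k hk _ h (mem_of_mem_nhds hO)
  have hnot0 : ∀ k, i1 ≤ k → (0 : ℝ × ℝ) ∉ P k := by
    intro k hk h
    have hcont : Continuous fun t : ℝ => t • ((1, 0) : ℝ × ℝ) := by fun_prop
    have hmem : {t : ℝ | t • ((1, 0) : ℝ × ℝ) ∈ P k} ∈ 𝓝 (0 : ℝ) :=
      ((hopen k).preimage hcont).mem_nhds (by
        change (0 : ℝ) • ((1, 0) : ℝ × ℝ) ∈ P k
        rw [zero_smul]; exact h)
    obtain ⟨ε, hε, hball⟩ := Metric.mem_nhds_iff.1 hmem
    have h1 : (ε / 2) • ((1, 0) : ℝ × ℝ) ∈ P k := by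
      apply hball
      rw [Metric.mem_ball, Real.dist_eq, sub_zero, abs_of_pos (by positivity)]
      linarith
    have h2 := hcone k (2 / ε) (by positivity) _ h1
    rw [smul_smul, show 2 / ε * (ε / 2) = 1 by field_simp, one_smul] at h2
    exact hnot1 k hk h2
  -- bound
  obtain ⟨ε0, hε0, hball⟩ := Metric.mem_nhds_iff.1 hO
  set B : ℝ := 2 / ε0 + 1 with hB
  have hB1 : 1 ≤ B := by
    have : 0 < 2 / ε0 := by positivity
    linarith
  have hbound : ∀ k, i1 ≤ k → ∀ x, gpt x ∈ P k → |x| ≤ B := by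
    intro k hk x hx
    by_contra hcon
    push Not at hcon
    have hx1 : 1 < |x| := lt_of_le_of_lt hB1 hcon
    have hpos : 0 < x ^ 2 + 1 := by positivity
    have h1 := hcone k (1 / (x ^ 2 + 1)) (by positivity) _ hx
    apply hi1 k hk _ h1
    apply hball
    have hxsq : |x| ^ 2 = x ^ 2 := sq_abs x
    have e1 : ε0 * |x| > 2 := by
      have : 2 / ε0 < |x| := by linarith
      rw [div_lt_iff₀ hε0] at this
      linarith
    rw [Metric.mem_ball, Prod.dist_eq]
    apply max_lt
    · simp only [gpt, Prod.smul_mk, smul_eq_mul]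
      rw [Real.dist_eq]
      have e2 : 1 / (x ^ 2 + 1) * (x ^ 2 - 1) - 1 = -(2 / (x ^ 2 + 1)) := by
        field_simp; ring
      rw [e2, abs_neg, abs_of_pos (by positivity), div_lt_iff₀ hpos]
      nlinarith
    · simp only [gpt, Prod.smul_mk, smul_eq_mul]
      rw [Real.dist_eq, sub_zero, abs_mul, abs_of_pos (by positivity : 0 < 1 / (x ^ 2 + 1)),
        abs_mul, abs_of_pos (by norm_num : (0:ℝ) < 2), div_mul_eq_mul_div, one_mul,
        div_lt_iff₀ hpos]
      nlinarith
  set J : ℕ → Set ℝ := fun k => {x | gpt x ∈ P (i1 + k)} with hJ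
  have hord : ∀ k, (J k).OrdConnected := by
    intro k
    have hk : i1 ≤ i1 + k := Nat.le_add_right _ _
    constructor
    intro x hx y hy z hz
    rcases hz.1.eq_or_lt with h | hxz
    · rw [← h]; exact hx
    rcases hz.2.eq_or_lt with h | hzy
    · rw [h]; exact hy
    have hxy : x < y := hxz.trans hzy
    change gpt z ∈ P (i1 + k)
    rcases lt_trichotomy (x * y + 1) 0 with h | h | h
    · -- then `x < 0 < y`, and `(1, 0)` is in the cone
      exfalso
      have hx0 : x < 0 := by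
        by_contra hc
        push Not at hc
        nlinarith
      have hy0 : 0 < y := by
        by_contra hc
        push Not at hc
        nlinarith
      have h1 := hadd _ _ (hcone _ y hy0 _ hx) _ (hcone _ (-x) (by linarith) _ hy)
      rw [← gpt_identity'] at h1
      have hc : 0 < (x - y) * (x * y + 1) := mul_pos_of_neg_of_neg (by linarith) h
      have h2 := hcone _ _ (inv_pos.2 hc) _ h1
      rw [smul_smul, inv_mul_cancel₀ hc.ne', one_smul] at h2
      exact hnot1 _ hk h2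
    · exfalso
      have hx0 : x < 0 := by
        by_contra hc
        push Not at hc
        nlinarith
      have hy0 : 0 < y := by
        by_contra hc
        push Not at hc
        nlinarith
      have h1 := hadd _ _ (hcone _ y hy0 _ hx) _ (hcone _ (-x) (by linarith) _ hy)
      rw [← gpt_identity', h, mul_zero, zero_smul] at h1
      exact hnot0 _ hk h1
    · have hzy1 : 0 < z * y + 1 := by
        rcases le_or_gt 0 y with hy0 | hy0
        · nlinarith
        · nlinarith
      have hxz1 : 0 < x * z + 1 := by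
        rcases le_or_gt x 0 with hx0 | hx0
        · nlinarith
        · nlinarith
      have h1 := hadd _ _ (hcone _ ((y - z) * (z * y + 1)) (mul_pos (by linarith) hzy1) _ hx) _
        (hcone _ ((z - x) * (x * z + 1)) (mul_pos (by linarith) hxz1) _ hy)
      rw [← gpt_identity] at h1
      have hc : 0 < (y - x) * (x * y + 1) := mul_pos (by linarith) h
      have h2 := hcone _ _ (inv_pos.2 hc) _ h1
      rwa [smul_smul, inv_mul_cancel₀ hc.ne', one_smul] at h2
  have hray : ∀ k, ∀ w ∈ P (i1 + k), ∃ x c : ℝ, 0 < c ∧ w = c • gpt x ∧ x ∈ J k := by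
    intro k w hw
    have hk : i1 ≤ i1 + k := Nat.le_add_right _ _
    have hw' : ¬ (0 ≤ w.1 ∧ w.2 = 0) := by
      rintro ⟨h1, h2⟩
      rcases h1.eq_or_lt with h3 | h3
      · apply hnot0 _ hk
        have : w = 0 := Prod.ext h3.symm h2
        rwa [this] at hw
      · apply hnot1 _ hk
        have h4 := hcone _ (w.1)⁻¹ (inv_pos.2 h3) _ hw
        have : (w.1)⁻¹ • w = (1, 0) := by
          ext
          · simp [inv_mul_cancel₀ h3.ne']
          · simp [h2]
        rwa [this] at h4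
    obtain ⟨x, c, hc, hwc⟩ := exists_gpt hw'
    refine ⟨x, c, hc, hwc, ?_⟩
    have h4 := hcone _ c⁻¹ (inv_pos.2 hc) _ hw
    rw [hwc, smul_smul, inv_mul_cancel₀ hc.ne', one_smul] at h4
    exact h4
  have hconsJ : ∀ k, (J k ∩ J (k + 1)).Nonempty := by
    intro k
    obtain ⟨w, hw1, hw2⟩ := hcons (i1 + k)
    obtain ⟨x, c, hc, hwc, hx⟩ := hray k w hw1
    refine ⟨x, hx, ?_⟩
    change gpt x ∈ P (i1 + (k + 1))
    have h4 := hcone _ c⁻¹ (inv_pos.2 hc) _ hw2
    rwa [hwc, smul_smul, inv_mul_cancel₀ hc.ne', one_smul] at h4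
  have hLFJ : ∀ j, ∀ y ∈ J j, ∃ δ : ℝ, 0 < δ ∧ ∃ i0, ∀ k, i0 ≤ k → ∀ x ∈ J k, δ ≤ |x - y| := by
    intro j y hy
    obtain ⟨O', hO', i0, hi0⟩ := hLF (i1 + j) (gpt y) hy
    have hmem : gpt ⁻¹' O' ∈ 𝓝 y := continuous_gpt.continuousAt hO'
    obtain ⟨δ, hδ, hδball⟩ := Metric.mem_nhds_iff.1 hmem
    refine ⟨δ, hδ, i0, fun k hk x hx => ?_⟩
    by_contra hcon
    push Not at hcon
    exact hi0 (i1 + k) (by omega) (gpt x) hx (hδball (by rwa [Metric.mem_ball, Real.dist_eq]))
  obtain ⟨s, hsB, hconvg, hside⟩ := interval_lemma J B hord hconsJ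
    (fun k x hx => hbound _ (Nat.le_add_right _ _) x hx) hLFJ
  -- the linear form vanishing on the limit ray, up to sign
  have hdet : ∀ x : ℝ, -2 * s * (gpt x).1 + (s ^ 2 - 1) * (gpt x).2 =
      2 * (s - x) * (s * x + 1) := by
    intro x
    simp only [gpt]
    ring
  have hpos1 : ∀ x : ℝ, |x - s| < 1 → 0 < s * x + 1 := by
    intro x hx
    rw [abs_lt] at hx
    nlinarith [sq_nonneg (s - (s - x) / 2), sq_nonneg (s - x)]
  obtain ⟨sg, hsg, hsgn⟩ : ∃ sg : ℝ, (sg = 1 ∨ sg = -1) ∧ ∀ k, ∀ x ∈ J k, 0 ≤ sg * (s - x) := by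
    rcases hside with h | h
    · exact ⟨1, Or.inl rfl, fun k x hx => by have := h k x hx; linarith⟩
    · exact ⟨-1, Or.inr rfl, fun k x hx => by have := h k x hx; linarith⟩
  have hsgabs : |sg| = 1 := by rcases hsg with h | h <;> simp [h]
  refine ⟨gpt s, sg * (-2 * s), sg * (s ^ 2 - 1), ?_, ?_, ?_, ?_, ?_⟩
  · intro h
    have := half_le_norm_gpt s
    rw [h, norm_zero] at this
    norm_num at this
  · have hsg0 : sg ≠ 0 := by rcases hsg with h | h <;> simp [h]
    by_cases hs : s = 0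
    · right
      rw [hs]
      intro h
      rcases mul_eq_zero.1 h with h | h
      · exact hsg0 h
      · norm_num at h
    · left
      intro h
      rcases mul_eq_zero.1 h with h | h
      · exact hsg0 h
      · rcases mul_eq_zero.1 h with h | h
        · norm_num at h
        · exact hs h
  · simp only [gpt]
    ring
  · obtain ⟨i0, hi0⟩ := hconvg 1 one_pos
    refine ⟨i1 + i0, fun k hk w hw => ?_⟩
    obtain ⟨k', rfl⟩ := Nat.exists_eq_add_of_le (show i1 ≤ k by omega)
    obtain ⟨x, c, hc, rfl, hx⟩ := hray k' w hw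
    have h1 := hpos1 x (hi0 k' (by omega) x hx)
    have h2 := hsgn k' x hx
    have h3 := hdet x
    have e : sg * (-2 * s) * (c • gpt x).1 + sg * (s ^ 2 - 1) * (c • gpt x).2 =
        c * sg * (-2 * s * (gpt x).1 + (s ^ 2 - 1) * (gpt x).2) := by
      simp only [Prod.smul_fst, Prod.smul_snd, smul_eq_mul]; ring
    rw [e, h3]
    have : c * sg * (2 * (s - x) * (s * x + 1)) = 2 * c * (sg * (s - x)) * (s * x + 1) := by ring
    rw [this]
    positivity
  · intro ε hε
    set δ : ℝ := ε / (4 * (B + 1)) with hδdef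
    have hBpos : 0 < 4 * (B + 1) := by positivity
    have hδ : 0 < δ := by positivity
    obtain ⟨i0, hi0⟩ := hconvg δ hδ
    refine ⟨i1 + i0, fun k hk w hw => ?_⟩
    obtain ⟨k', rfl⟩ := Nat.exists_eq_add_of_le (show i1 ≤ k by omega)
    obtain ⟨x, c, hc, rfl, hx⟩ := hray k' w hw
    have hxs := hi0 k' (by omega) x hx
    have hxB : |x| ≤ B := hbound _ (Nat.le_add_right _ _) x hx
    refine ⟨c, hc.le, ?_⟩
    have h10 := half_le_norm_gpt x
    have h11 : ‖c • gpt x‖ = c * ‖gpt x‖ := by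
      rw [norm_smul, Real.norm_eq_abs, abs_of_pos hc]
    have h12 : c • gpt x - c • gpt s = c • (gpt x - gpt s) := by rw [smul_sub]
    have h13 : ‖gpt x - gpt s‖ ≤ 2 * (B + 1) * |x - s| := by
      have e1 : gpt x - gpt s = ((x - s) * (x + s), 2 * (x - s)) := by
        ext
        · simp only [gpt, Prod.fst_sub]; ring
        · simp only [gpt, Prod.snd_sub]; ring
      rw [e1, Prod.norm_def]
      apply max_le
      · simp only [Real.norm_eq_abs, abs_mul]
        have h14 : |x + s| ≤ 2 * B := (abs_add_le x s).trans (by linarith)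
        have h15 := abs_nonneg (x - s)
        nlinarith
      · simp only [Real.norm_eq_abs, abs_mul]
        rw [abs_of_pos (by norm_num : (0:ℝ) < 2)]
        have h15 := abs_nonneg (x - s)
        nlinarith
    rw [h12, norm_smul, Real.norm_eq_abs, abs_of_pos hc, h11]
    have h16 : 2 * (B + 1) * |x - s| ≤ 2 * (B + 1) * δ :=
      mul_le_mul_of_nonneg_left hxs.le (by linarith)
    have h17 : 2 * (B + 1) * δ = ε / 2 := by
      rw [hδdef]; field_simp; ring
    calc c * ‖gpt x - gpt s‖ ≤ c * (ε / 2) := by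
          apply mul_le_mul_of_nonneg_left _ hc.le
          linarith
      _ = ε * (c * (1 / 2)) := by ring
      _ ≤ ε * (c * ‖gpt x‖) := by
          apply mul_le_mul_of_nonneg_left _ hε.le
          exact mul_le_mul_of_nonneg_left h10 hc.le

end Pool.Agent.Work.MP_89a3f8
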