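import Mathlib
import Pool.Agent.Work.MP_89a3f8.Basic

/-!
# Flips with scaling of an arbitrary divisor
-/

set_option autoImplicit false

namespace Pool.Agent.Work.MP_89a3f8

open Set Filter Topology

variable {V : Type} [NormedAddCommGroup V] [NormedSpace ℝ V]

namespace NefSystem

variable (M : NefSystem V)

/-- Only finitely many models have a nef class in a compact set of classes at which finiteness of
models holds locally. -/
theorem finite_of_compact {K : Set V} (hK : IsCompact K)
    (h : ∀ x ∈ K, ∃ O ∈ 𝓝 x, {X'' : M.Model | (M.nef X'' ∩ O).Nonempty}.Finite) :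
    {X'' : M.Model | (M.nef X'' ∩ K).Nonempty}.Finite := by
  choose! O hO hfin using h
  obtain ⟨t, htK, hcover⟩ := hK.elim_nhds_subcover O hO
  have hsub : {X'' : M.Model | (M.nef X'' ∩ K).Nonempty} ⊆
      ⋃ x ∈ t, {X'' : M.Model | (M.nef X'' ∩ O x).Nonempty} := by
    rintro X'' ⟨D, hD1, hD2⟩
    obtain ⟨x, hx, hDx⟩ := mem_iUnion₂.1 (hcover hD2)
    exact mem_iUnion₂.2 ⟨x, hx, D, hD1, hDx⟩
  exact (Set.Finite.biUnion t.finite_toSet fun x hx => hfin x (htK x hx)).subset hsub

/-- If `κ` is not pseudo-effective, then `κ + t N` is not pseudo-effective for `t` small, uniformly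
for bounded `N`. -/
theorem exists_pos_not_eff (hk : M.kappa ∉ M.eff) (B : ℝ) :
    ∃ t0 : ℝ, 0 < t0 ∧ ∀ t : ℝ, 0 ≤ t → t < t0 → ∀ N : V, ‖N‖ ≤ B → M.kappa + t • N ∉ M.eff := by
  have hopen : M.effᶜ ∈ 𝓝 M.kappa := M.eff_closed.isOpen_compl.mem_nhds hk
  obtain ⟨ε, hε, hball⟩ := Metric.mem_nhds_iff.1 hopen
  refine ⟨ε / (|B| + 1), by positivity, ?_⟩
  intro t ht0 ht N hN
  have hB : ‖N‖ ≤ |B| := hN.trans (le_abs_self B)
  apply hball
  rw [Metric.mem_ball, dist_eq_norm]
  have h1 : M.kappa + t • N - M.kappa = t • N := by abel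
  rw [h1, norm_smul, Real.norm_eq_abs, abs_of_nonneg ht0]
  have hpos : 0 < |B| + 1 := by positivity
  calc t * ‖N‖ ≤ t * (|B| + 1) := by
        apply mul_le_mul_of_nonneg_left _ ht0
        linarith
    _ < ε / (|B| + 1) * (|B| + 1) := by
        apply mul_lt_mul_of_pos_right ht hpos
    _ = ε := by field_simp

/-- An infinite sequence of flips `X 0 ⇢ X 1 ⇢ ⋯` with scaling of the class `H` and nef thresholds
`lam i`: `κ + lam i • H` is nef on `X i` and trivial on the `i`-th flipping ray. (As `κ` is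
negative on this ray, `lam i` is the least `λ ≥ 0` for which `κ + λ • H` is nef on `X i`.) -/
def IsScaling (X : ℕ → M.Model) (R : ℕ → V →ₗ[ℝ] ℝ) (H : V) (lam : ℕ → ℝ) : Prop :=
  M.IsFlipSequence X R ∧ ∀ i, 0 ≤ lam i ∧ M.kappa + lam i • H ∈ M.nef (X i) ∧
    R i (M.kappa + lam i • H) = 0

variable {M}

theorem IsScaling.pos {X : ℕ → M.Model} {R : ℕ → V →ₗ[ℝ] ℝ} {H : V} {lam : ℕ → ℝ}
    (h : M.IsScaling X R H lam) (i : ℕ) : 0 < lam i ∧ 0 < R i H := by
  obtain ⟨hseq, hlam⟩ := h
  obtain ⟨h0, -, h2⟩ := hlam i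
  have hk := (hseq i).2.2.2
  rw [map_add, map_smul, smul_eq_mul] at h2
  have h3 : 0 < lam i * R i H := by linarith
  rcases h0.eq_or_lt with h4 | h4
  · rw [← h4, zero_mul] at h3; exact absurd h3 (lt_irrefl _)
  · exact ⟨h4, pos_of_mul_pos_right h3 h4.le⟩

theorem IsScaling.antitone {X : ℕ → M.Model} {R : ℕ → V →ₗ[ℝ] ℝ} {H : V} {lam : ℕ → ℝ}
    (h : M.IsScaling X R H lam) : Antitone lam := by
  apply antitone_nat_of_succ_le
  intro i
  obtain ⟨h0, h1, h2⟩ := h.2 i
  obtain ⟨-, -, h2'⟩ := h.2 (i + 1)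
  have hnef := M.flip_facet (h.1 i) h1 h2
  have h3 := (h.1 (i + 1)).2.1 _ hnef
  have hp := (h.pos (i + 1)).2
  rw [map_add, map_smul, smul_eq_mul] at h3 h2'
  by_contra hcon
  push Not at hcon
  have : (lam i - lam (i + 1)) * R (i + 1) H < 0 := mul_neg_of_neg_of_pos (by linarith) hp
  nlinarith

/-- The nef threshold of an infinite sequence with scaling of `H` never drops. -/
theorem IsScaling.constant (hk : M.kappa ∉ M.eff) {X : ℕ → M.Model} {R : ℕ → V →ₗ[ℝ] ℝ} {H : V}
    {lam : ℕ → ℝ} (h : M.IsScaling X R H lam) (hbig : M.kappa + lam 0 • H ∈ interior M.eff) :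
    ∀ i, lam i = lam 0 := by
  classical
  by_contra hcon
  push Not at hcon
  have hanti := h.antitone
  -- the first index at which the threshold has dropped
  have hex : ∃ i, lam i < lam 0 := by
    obtain ⟨i, hi⟩ := hcon
    exact ⟨i, lt_of_le_of_ne (hanti (Nat.zero_le i)) hi⟩
  set l := Nat.find hex with hl
  have hlt : lam l < lam 0 := Nat.find_spec hex
  have hbefore : ∀ i < l, lam i = lam 0 := by
    intro i hi
    have := Nat.find_min hex hi
    push Not at this
    exact le_antisymm (hanti (Nat.zero_le i)) this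
  set N : V := M.kappa + lam 0 • H with hN
  have hnefN : ∀ i ≤ l, N ∈ M.nef (X i) := by
    intro i
    induction i with
    | zero => intro _; exact (h.2 0).2.1
    | succ i ih =>
      intro hi
      have h1 := ih (Nat.le_of_succ_le hi)
      have h2 := (h.2 i).2.2
      rw [hbefore i (Nat.lt_of_succ_le hi)] at h2
      exact M.flip_facet (h.1 i) h1 h2
  have hlam0 : 0 < lam 0 := (h.pos 0).1
  obtain ⟨t0, ht0, hnot⟩ := M.exists_pos_not_eff hk ‖N‖
  set T : ℝ := lam l / (lam 0 - lam l) with hT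
  -- the classes `κ + t N`, `t₀ ≤ t ≤ T`
  have hK : IsCompact ((fun t : ℝ => M.kappa + t • N) '' Icc t0 T) :=
    isCompact_Icc.image (by fun_prop)
  have hfin := M.finite_of_compact hK (by
    rintro x ⟨t, ht, rfl⟩
    exact M.finite_models (X l) N (hnefN l le_rfl) hbig t (lt_of_lt_of_le ht0 ht.1))
  have hmem : ∀ i, l ≤ i → X i ∈ {X'' : M.Model |
      (M.nef X'' ∩ ((fun t : ℝ => M.kappa + t • N) '' Icc t0 T)).Nonempty} := by
    intro i hi
    have hli : lam i ≤ lam l := hanti hi
    have hpos : 0 < lam 0 - lam i := by linarith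
    have hlp := (h.pos i).1
    have hnef := (h.2 i).2.1
    set t : ℝ := lam i / (lam 0 - lam i) with ht
    have hscale : M.kappa + t • N = (lam 0 / (lam 0 - lam i)) • (M.kappa + lam i • H) := by
      rw [hN, ht]
      have e1 : (lam 0 / (lam 0 - lam i)) = 1 + lam i / (lam 0 - lam i) := by
        field_simp; ring
      have e2 : lam i / (lam 0 - lam i) * lam 0 = (1 + lam i / (lam 0 - lam i)) * lam i := by
        field_simp; ring
      rw [e1, smul_add, smul_add, add_smul, one_smul, smul_smul, smul_smul, e2]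
      abel
    have hnef2 : M.kappa + t • N ∈ M.nef (X i) := by
      rw [hscale]
      exact M.nef_smul _ _ (by positivity) _ hnef
    refine ⟨M.kappa + t • N, hnef2, t, ⟨?_, ?_⟩, rfl⟩
    · by_contra hlt'
      push Not at hlt'
      exact hnot t (by positivity) hlt' N le_rfl (M.nef_subset_eff _ hnef2)
    · rw [ht, hT]
      have hpos' : 0 < lam 0 - lam l := by linarith
      rw [div_le_div_iff₀ hpos hpos']
      nlinarith
  have hinj := M.seq_injective h.1
  have hinf : (X '' Ici l).Infinite := by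
    apply Set.Infinite.image hinj.injOn
    exact Set.Ici_infinite l
  apply hinf
  apply hfin.subset
  rintro _ ⟨i, hi, rfl⟩
  exact hmem i hi

end NefSystem

end Pool.Agent.Work.MP_89a3f8
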