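import Mathlib
import Pool.Agent.Work.MP_89a3f8.Basic
import Pool.Agent.Work.MP_89a3f8.Scaling
import Pool.Agent.Work.MP_89a3f8.Planar

/-!
# Infinite sequences of flips leave the compact sets of big classes; Picard number three
-/

set_option autoImplicit false

namespace Pool.Agent.Work.MP_89a3f8

open Set Filter Topology

variable {V : Type} [NormedAddCommGroup V] [NormedSpace ℝ V]

namespace NefSystem

variable (M : NefSystem V)

theorem nef_convex (X' : M.Model) : Convex ℝ (M.nef X') := by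
  intro a ha b hb s t hs ht _
  exact M.nef_add X' _ (M.nef_smul X' s hs a ha) _ (M.nef_smul X' t ht b hb)

theorem zero_mem_nef (X' : M.Model) : (0 : V) ∈ M.nef X' := by
  obtain ⟨A, hA⟩ := M.ample_nonempty X'
  have := M.nef_smul X' 0 le_rfl A (interior_subset hA)
  rwa [zero_smul] at this

theorem kappa_ne_zero (hk : M.kappa ∉ M.eff) (X' : M.Model) : M.kappa ≠ 0 := by
  intro h
  apply hk
  rw [h]
  exact M.nef_subset_eff X' (M.zero_mem_nef X')

theorem interior_smul (X' : M.Model) {t : ℝ} (ht : 0 < t) {A : V} (hA : A ∈ interior (M.nef X')) :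
    t • A ∈ interior (M.nef X') := by
  have h1 : (fun x => t • x) '' interior (M.nef X') ⊆ M.nef X' := by
    rintro _ ⟨B, hB, rfl⟩
    exact M.nef_smul X' t ht.le B (interior_subset hB)
  have h2 : IsOpen ((fun x => t • x) '' interior (M.nef X')) :=
    (Homeomorph.smulOfNeZero t ht.ne').isOpenMap _ isOpen_interior
  exact interior_maximal h1 h2 ⟨A, hA, rfl⟩

theorem add_interior (X' : M.Model) {D A : V} (hD : D ∈ M.nef X')
    (hA : A ∈ interior (M.nef X')) : D + A ∈ interior (M.nef X') := by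
  have h1 : (fun x => D + x) '' interior (M.nef X') ⊆ M.nef X' := by
    rintro _ ⟨B, hB, rfl⟩
    exact M.nef_add X' D hD B (interior_subset hB)
  have h2 : IsOpen ((fun x => D + x) '' interior (M.nef X')) :=
    (Homeomorph.addLeft D).isOpenMap _ isOpen_interior
  exact interior_maximal h1 h2 ⟨A, hA, rfl⟩

/-- Near an ample class `N` of `X j` no class `N' + s κ`, `s ∈ ℝ`, is nef on `X k`, `k` large. -/
theorem escape [FiniteDimensional ℝ V] (hk : M.kappa ∉ M.eff) {X : ℕ → M.Model} {R : ℕ → V →ₗ[ℝ] ℝ}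
    (h : M.IsFlipSequence X R) (j : ℕ) {N : V} (hN : N ∈ interior (M.nef (X j))) :
    ∃ δ : ℝ, 0 < δ ∧ ∃ i0, ∀ k, i0 ≤ k → ∀ N' : V, dist N' N < δ → ∀ s : ℝ,
      N' + s • M.kappa ∉ M.nef (X k) := by
  obtain ⟨δ₁, hδ₁, hball⟩ := Metric.isOpen_iff.1 isOpen_interior N hN
  set δ : ℝ := δ₁ / 2 with hδ
  have hδpos : 0 < δ := by positivity
  -- small positive `s`
  set s₁ : ℝ := δ / (‖M.kappa‖ + 1) with hs₁
  have hs₁pos : 0 < s₁ := by positivity
  have hsmall : ∀ N', dist N' N < δ → ∀ s : ℝ, 0 ≤ s → s ≤ s₁ →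
      N' + s • M.kappa ∈ interior (M.nef (X j)) := by
    intro N' hN' s hs0 hs
    apply hball
    rw [Metric.mem_ball]
    have h1 : dist (N' + s • M.kappa) N' ≤ δ := by
      rw [dist_eq_norm, add_sub_cancel_left, norm_smul, Real.norm_eq_abs, abs_of_nonneg hs0]
      calc s * ‖M.kappa‖ ≤ s₁ * (‖M.kappa‖ + 1) := by
            apply mul_le_mul hs (by linarith) (norm_nonneg _) hs₁pos.le
        _ = δ := by rw [hs₁]; field_simp
    have h2 := dist_triangle (N' + s • M.kappa) N' N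
    linarith
  -- larger `s`
  obtain ⟨t0, ht0, hnot⟩ := M.exists_pos_not_eff hk (‖N‖ + δ)
  set K : Set V := (fun p : ℝ × V => M.kappa + p.1 • p.2) ''
    (Icc t0 (1 / s₁) ×ˢ Metric.closedBall N δ) with hK
  have hKc : IsCompact K :=
    (isCompact_Icc.prod (isCompact_closedBall N δ)).image (by fun_prop)
  have hfin := M.finite_of_compact hKc (by
    rintro x ⟨⟨t, N'⟩, ⟨ht, hN'⟩, rfl⟩
    have h1 : N' ∈ interior (M.nef (X j)) := by
      apply hball
      rw [Metric.mem_ball]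
      rw [Metric.mem_closedBall] at hN'
      linarith
    exact M.finite_models (X j) N' (interior_subset h1)
      (interior_mono (M.nef_subset_eff _) h1) t (lt_of_lt_of_le ht0 ht.1))
  have hinj := M.seq_injective h
  have hfin' : {k | X k ∈ {X'' : M.Model | (M.nef X'' ∩ K).Nonempty}}.Finite :=
    hfin.preimage hinj.injOn
  obtain ⟨b, hb⟩ := hfin'.bddAbove
  refine ⟨δ, hδpos, max (j + 1) (b + 1), fun k hk' N' hN' s hmem => ?_⟩
  have hjk : j < k := lt_of_lt_of_le (Nat.lt_succ_self j) ((le_max_left _ _).trans hk')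
  have hbk : b < k := lt_of_lt_of_le (Nat.lt_succ_self b) ((le_max_right _ _).trans hk')
  have hN'int : N' ∈ interior (M.nef (X j)) := by
    have := hsmall N' hN' 0 le_rfl hs₁pos.le
    rwa [zero_smul, add_zero] at this
  rcases lt_or_ge s 0 with hs | hs
  · have h1 := M.seq_mono h hjk (interior_subset hN'int) (s := -s) (by linarith)
    apply h1
    rw [neg_smul, sub_neg_eq_add]
    exact hmem
  rcases le_or_gt s s₁ with hs' | hs'
  · exact M.seq_ample_not_nef h hjk (hsmall N' hN' s hs hs') hmem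
  · -- `κ + s⁻¹ N'` is in the compact set
    have hspos : 0 < s := hs₁pos.trans hs'
    have h1 : M.kappa + s⁻¹ • N' ∈ M.nef (X k) := by
      have h2 := M.nef_smul (X k) s⁻¹ (inv_nonneg.2 hspos.le) _ hmem
      rw [smul_add, smul_smul, inv_mul_cancel₀ hspos.ne', one_smul] at h2
      rwa [add_comm]
    have h3 : s⁻¹ ≤ 1 / s₁ := by
      rw [one_div]
      exact inv_anti₀ hs₁pos hs'.le
    have hnorm : ‖N'‖ ≤ ‖N‖ + δ := by
      have h4 : ‖N'‖ ≤ ‖N‖ + ‖N' - N‖ := by
        have := norm_add_le N (N' - N)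
        rwa [add_sub_cancel] at this
      rw [dist_eq_norm] at hN'
      linarith
    have h4 : t0 ≤ s⁻¹ := by
      by_contra hcon
      push Not at hcon
      exact hnot s⁻¹ (inv_nonneg.2 hspos.le) hcon N' hnorm (M.nef_subset_eff _ h1)
    have h5 : k ∈ {k | X k ∈ {X'' : M.Model | (M.nef X'' ∩ K).Nonempty}} := by
      refine ⟨M.kappa + s⁻¹ • N', h1, ⟨s⁻¹, N'⟩, ⟨⟨h4, h3⟩, ?_⟩, rfl⟩
      rw [Metric.mem_closedBall]
      exact hN'.le
    have := hb h5
    omega

/-- Coordinates: two linear forms which vanish on `κ`, have independent values, and take the values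
`(1, 0)` at some ample class of a given model. -/
theorem exists_coord [FiniteDimensional ℝ V] (hk0 : M.kappa ≠ 0) (h3 : Module.finrank ℝ V = 3)
    (X' : M.Model) : ∃ p : V →ₗ[ℝ] ℝ × ℝ, LinearMap.ker p = Submodule.span ℝ {M.kappa} ∧
      Function.Surjective p ∧ ∃ u ∈ interior (M.nef X'), p u = (1, 0) := by
  -- an ample class which is not on the line of `κ`
  obtain ⟨u, hu, huk⟩ : ∃ u ∈ interior (M.nef X'), u ∉ Submodule.span ℝ {M.kappa} := by
    by_contra hcon
    push Not at hcon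
    have h1 : (interior (M.nef X')) ⊆ (Submodule.span ℝ {M.kappa} : Set V) := hcon
    have h2 : (interior (Submodule.span ℝ {M.kappa} : Set V)).Nonempty :=
      (M.ample_nonempty X').mono (by
        rw [← interior_interior]
        exact interior_mono h1)
    have h3' := Submodule.eq_top_of_nonempty_interior' _ h2
    have h4 : Module.finrank ℝ (Submodule.span ℝ {M.kappa}) = 3 := by
      rw [h3', finrank_top, h3]
    rw [finrank_span_singleton hk0] at h4
    omega
  have hli2 : LinearIndependent ℝ ![u, M.kappa] := by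
    rw [LinearIndependent.pair_iff]
    intro s t hst
    have hs : s = 0 := by
      by_contra hs
      apply huk
      rw [Submodule.mem_span_singleton]
      refine ⟨-(s⁻¹ * t), ?_⟩
      have h5 : s • u = -(t • M.kappa) := eq_neg_of_add_eq_zero_left hst
      have h6 : u = s⁻¹ • (s • u) := by rw [smul_smul, inv_mul_cancel₀ hs, one_smul]
      rw [h6, h5, smul_neg, smul_smul, neg_smul]
    refine ⟨hs, ?_⟩
    rw [hs, zero_smul, zero_add] at hst
    exact (smul_eq_zero.1 hst).resolve_right hk0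
  obtain ⟨v, hv⟩ : ∃ v : V, v ∉ Submodule.span ℝ (Set.range ![u, M.kappa]) := by
    by_contra hcon
    push Not at hcon
    have h5 : Submodule.span ℝ (Set.range ![u, M.kappa]) = ⊤ := by
      rw [eq_top_iff]
      intro x _
      exact hcon x
    have h6 := finrank_span_eq_card hli2
    rw [h5, finrank_top, h3] at h6
    simp at h6
  have hli3 : LinearIndependent ℝ (Fin.cons v ![u, M.kappa] : Fin 3 → V) :=
    LinearIndependent.finCons hli2 hv
  set b := basisOfLinearIndependentOfCardEqFinrank hli3 (by rw [h3]; simp) with hb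
  have hb0 : b 0 = v := by rw [hb, coe_basisOfLinearIndependentOfCardEqFinrank]; rfl
  have hb1 : b 1 = u := by rw [hb, coe_basisOfLinearIndependentOfCardEqFinrank]; rfl
  have hb2 : b 2 = M.kappa := by rw [hb, coe_basisOfLinearIndependentOfCardEqFinrank]; rfl
  refine ⟨(b.coord 1).prod (b.coord 0), ?_, ?_, u, hu, ?_⟩
  · ext x
    rw [LinearMap.mem_ker, Submodule.mem_span_singleton]
    constructor
    · intro hx
      have h1 : b.coord 1 x = 0 := congrArg Prod.fst hx
      have h0 : b.coord 0 x = 0 := congrArg Prod.snd hx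
      refine ⟨b.coord 2 x, ?_⟩
      conv_rhs => rw [← b.sum_repr x]
      rw [Fin.sum_univ_three, hb2]
      have h1' : b.repr x 1 = 0 := h1
      have h0' : b.repr x 0 = 0 := h0
      rw [h1', h0', zero_smul, zero_smul, zero_add, zero_add]
      rfl
    · rintro ⟨c, rfl⟩
      rw [← hb2]
      ext
      · simp
      · simp
  · rintro ⟨x, y⟩
    refine ⟨x • b 1 + y • b 0, ?_⟩
    ext
    · simp
    · simp
  · rw [← hb1]
    ext
    · simp
    · simp

/-- Picard number three: the nef cones of an infinite sequence of flips converge to a half plane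
bounded by the line of `κ`, from one side. -/
theorem three [FiniteDimensional ℝ V] (h3 : Module.finrank ℝ V = 3) (hk : M.kappa ∉ M.eff)
    {X : ℕ → M.Model} {R : ℕ → V →ₗ[ℝ] ℝ} (h : M.IsFlipSequence X R) :
    ∃ (θ : V) (r : V →ₗ[ℝ] ℝ), θ ∉ Submodule.span ℝ {M.kappa} ∧ r ≠ 0 ∧ r M.kappa = 0 ∧
      r θ = 0 ∧ (∃ j0, ∀ k, j0 ≤ k → ∀ D ∈ M.nef (X k), 0 ≤ r D) ∧
      ∀ ε : ℝ, 0 < ε → ∃ i0, ∀ k, i0 ≤ k → ∀ D ∈ M.nef (X k), ∃ a b : ℝ, 0 ≤ b ∧
        ‖D - (a • M.kappa + b • θ)‖ ≤ ε * ‖D‖ := by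
  have hk0 := M.kappa_ne_zero hk (X 0)
  obtain ⟨p, hker, hsurj, u, hu, hpu⟩ := M.exists_coord hk0 h3 (X 0)
  have hpk : p M.kappa = 0 := by
    rw [← LinearMap.mem_ker, hker]
    exact Submodule.mem_span_singleton_self _
  have hpcont : Continuous p := p.continuous_of_finiteDimensional
  have hpopen : IsOpenMap p := p.isOpenMap_of_finiteDimensional hsurj
  set P : ℕ → Set (ℝ × ℝ) := fun k => p '' interior (M.nef (X k)) with hP
  have hopen : ∀ k, IsOpen (P k) := fun k => hpopen _ isOpen_interior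
  have hconv : ∀ k, Convex ℝ (P k) := fun k => (M.nef_convex (X k)).interior.is_linear_image
    p.isLinear
  have hcone : ∀ k, ∀ c : ℝ, 0 < c → ∀ w ∈ P k, c • w ∈ P k := by
    rintro k c hc _ ⟨A, hA, rfl⟩
    exact ⟨c • A, M.interior_smul _ hc hA, by rw [map_smul]⟩
  have hcons : ∀ k, (P k ∩ P (k + 1)).Nonempty := by
    intro k
    obtain ⟨hspan, hpos, hneg, hRk⟩ := h k
    set F : Set V := M.nef (X k) ∩ M.nef (X (k + 1)) with hF
    have hFconv : Convex ℝ F := (M.nef_convex _).inter (M.nef_convex _)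
    have himgconv : Convex ℝ (p '' F) := hFconv.is_linear_image p.isLinear
    have h0F : (0 : V) ∈ F := ⟨M.zero_mem_nef _, M.zero_mem_nef _⟩
    have hspanimg : Submodule.span ℝ (p '' F) = ⊤ := by
      rw [Submodule.span_image, hspan, eq_top_iff]
      intro w _
      obtain ⟨D, rfl⟩ := hsurj w
      refine ⟨D - (R k D / R k M.kappa) • M.kappa, ?_, ?_⟩
      · rw [SetLike.mem_coe, LinearMap.mem_ker, map_sub, map_smul, smul_eq_mul,
          div_mul_cancel₀ _ hRk.ne, sub_self]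
      · rw [map_sub, map_smul, hpk, smul_zero, sub_zero]
    have haff : affineSpan ℝ (p '' F) = ⊤ := by
      have hne : (p '' F).Nonempty := ⟨p 0, 0, h0F, rfl⟩
      rw [AffineSubspace.affineSpan_eq_top_iff_vectorSpan_eq_top_of_nonempty ℝ (ℝ × ℝ) (ℝ × ℝ)
        hne]
      rw [eq_top_iff, ← hspanimg, Submodule.span_le]
      intro w hw
      have h0 : (0 : ℝ × ℝ) ∈ p '' F := ⟨0, h0F, map_zero p⟩
      have := vsub_mem_vectorSpan ℝ hw h0
      simpa using this
    have hint : (interior (p '' F)).Nonempty := himgconv.interior_nonempty_iff_affineSpan_eq_top.2 haff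
    obtain ⟨w, hw⟩ := hint
    have hmem : ∀ k', F ⊆ M.nef (X k') → w ∈ P k' := by
      intro k' hFk'
      obtain ⟨A, hA⟩ := M.ample_nonempty (X k')
      have hcont : Continuous fun t : ℝ => w - t • p A := by fun_prop
      have hnhd : {t : ℝ | w - t • p A ∈ interior (p '' F)} ∈ 𝓝 (0 : ℝ) :=
        (isOpen_interior.preimage hcont).mem_nhds (by simpa using hw)
      obtain ⟨ε, hε, hball⟩ := Metric.mem_nhds_iff.1 hnhd
      have h1 : w - (ε / 2) • p A ∈ interior (p '' F) := by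
        apply hball
        rw [Metric.mem_ball, Real.dist_eq, sub_zero, abs_of_pos (by positivity)]
        linarith
      obtain ⟨f, hf, hfw⟩ := interior_subset h1
      refine ⟨f + (ε / 2) • A, M.add_interior _ (hFk' hf)
        (M.interior_smul _ (by positivity) hA), ?_⟩
      rw [map_add, map_smul, hfw, sub_add_cancel]
    exact ⟨w, hmem k inter_subset_left, hmem (k + 1) inter_subset_right⟩
  have h0 : ((1, 0) : ℝ × ℝ) ∈ P 0 := ⟨u, hu, hpu⟩
  have hLF : ∀ j, ∀ w ∈ P j, ∃ O ∈ 𝓝 w, ∃ i0, ∀ k, i0 ≤ k → ∀ w' ∈ P k, w' ∉ O := by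
    rintro j _ ⟨N, hN, rfl⟩
    obtain ⟨δ, hδ, i0, hi0⟩ := M.escape hk h j hN
    refine ⟨p '' Metric.ball N δ, (hpopen _ Metric.isOpen_ball).mem_nhds
      ⟨N, Metric.mem_ball_self hδ, rfl⟩, i0, ?_⟩
    rintro k hk' _ ⟨c, hc, rfl⟩ ⟨N', hN', hNc⟩
    have h1 : c - N' ∈ LinearMap.ker p := by
      rw [LinearMap.mem_ker, map_sub, hNc, sub_self]
    rw [hker, Submodule.mem_span_singleton] at h1
    obtain ⟨s, hs⟩ := h1
    apply hi0 k hk' N' hN' s
    rw [hs, add_sub_cancel]
    exact interior_subset hc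
  obtain ⟨w₀, a, b, hw₀, hab, habw, ⟨j0, hj0⟩, hlim⟩ := planar P hopen hconv hcone hcons h0 hLF
  obtain ⟨σ, hσ⟩ := p.exists_rightInverse_of_surjective (LinearMap.range_eq_top.2 hsurj)
  have hpσ : ∀ w, p (σ w) = w := fun w => by
    have := congrArg (fun f : (ℝ × ℝ) →ₗ[ℝ] ℝ × ℝ => f w) hσ
    exact this
  set q : ℝ × ℝ →ₗ[ℝ] ℝ := a • LinearMap.fst ℝ ℝ ℝ + b • LinearMap.snd ℝ ℝ ℝ with hq
  have hqapp : ∀ w : ℝ × ℝ, q w = a * w.1 + b * w.2 := fun w => rfl
  set r : V →ₗ[ℝ] ℝ := q.comp p with hr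
  -- a closed condition on the interior extends to the cone
  have hclos : ∀ k, ∀ D ∈ M.nef (X k), ∃ A ∈ interior (M.nef (X k)), ∀ t : ℝ, 0 < t →
      D + t • A ∈ interior (M.nef (X k)) := by
    intro k D hD
    obtain ⟨A, hA⟩ := M.ample_nonempty (X k)
    exact ⟨A, hA, fun t ht => M.add_interior _ hD (M.interior_smul _ ht hA)⟩
  refine ⟨σ w₀, r, ?_, ?_, ?_, ?_, ⟨j0, ?_⟩, ?_⟩
  · intro hmem
    rw [← hker, LinearMap.mem_ker, hpσ] at hmem
    exact hw₀ hmem
  · intro hr0
    rcases hab with ha | hb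
    · obtain ⟨D, hD⟩ := hsurj (1, 0)
      have : r D = 0 := by rw [hr0]; rfl
      rw [hr, LinearMap.comp_apply, hD, hqapp] at this
      simp at this
      exact ha this
    · obtain ⟨D, hD⟩ := hsurj (0, 1)
      have : r D = 0 := by rw [hr0]; rfl
      rw [hr, LinearMap.comp_apply, hD, hqapp] at this
      simp at this
      exact hb this
  · rw [hr, LinearMap.comp_apply, hpk, map_zero]
  · rw [hr, LinearMap.comp_apply, hpσ, hqapp, habw]
  · intro k hk' D hD
    obtain ⟨A, hA, hDA⟩ := hclos k D hD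
    have h1 : ∀ t : ℝ, 0 < t → 0 ≤ r (D + t • A) := fun t ht =>
      hj0 k hk' _ ⟨D + t • A, hDA t ht, rfl⟩
    have hcont : Continuous fun t : ℝ => r (D + t • A) := by
      have := r.continuous_of_finiteDimensional
      fun_prop
    have h2 : Tendsto (fun t : ℝ => r (D + t • A)) (𝓝[>] 0) (𝓝 (r (D + (0 : ℝ) • A))) :=
      (hcont.tendsto 0).mono_left nhdsWithin_le_nhds
    rw [zero_smul, add_zero] at h2
    exact ge_of_tendsto h2 (by filter_upwards [self_mem_nhdsWithin] with t ht using h1 t ht)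
  · intro ε hε
    set pc : V →L[ℝ] ℝ × ℝ := ⟨p, hpcont⟩ with hpc
    have hpb : ∀ D, ‖p D‖ ≤ ‖pc‖ * ‖D‖ := fun D => pc.le_opNorm D
    set σc : ℝ × ℝ →L[ℝ] V := ⟨σ, σ.continuous_of_finiteDimensional⟩ with hσc
    have hσb : ∀ w, ‖σ w‖ ≤ ‖σc‖ * ‖w‖ := fun w => σc.le_opNorm w
    set K : ℝ := (‖pc‖ + 1) * (‖σc‖ + 1) with hK
    have hKpos : 0 < K := by positivity
    obtain ⟨i0, hi0⟩ := hlim (ε / (2 * K)) (by positivity)
    -- the estimate on the interior
    have hinter : ∀ k, i0 ≤ k → ∀ D ∈ interior (M.nef (X k)), ∃ a b : ℝ, 0 ≤ b ∧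
        ‖D - (a • M.kappa + b • σ w₀)‖ ≤ ε / 2 * ‖D‖ := by
      intro k hk' D hD
      obtain ⟨c, hc, hcw⟩ := hi0 k hk' _ ⟨D, hD, rfl⟩
      have h1 : D - σ (p D) ∈ LinearMap.ker p := by
        rw [LinearMap.mem_ker, map_sub, hpσ, sub_self]
      rw [hker, Submodule.mem_span_singleton] at h1
      obtain ⟨a', ha'⟩ := h1
      refine ⟨a', c, hc, ?_⟩
      have h2 : D - (a' • M.kappa + c • σ w₀) = σ (p D - c • w₀) := by
        rw [ha', map_sub, map_smul]; abel
      rw [h2]
      calc ‖σ (p D - c • w₀)‖ ≤ ‖σc‖ * ‖p D - c • w₀‖ := hσb _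
        _ ≤ ‖σc‖ * (ε / (2 * K) * ‖p D‖) := mul_le_mul_of_nonneg_left hcw (norm_nonneg _)
        _ ≤ ‖σc‖ * (ε / (2 * K) * (‖pc‖ * ‖D‖)) := by
            apply mul_le_mul_of_nonneg_left _ (norm_nonneg _)
            exact mul_le_mul_of_nonneg_left (hpb D) (by positivity)
        _ ≤ (‖σc‖ + 1) * (ε / (2 * K) * ((‖pc‖ + 1) * ‖D‖)) := by
            have h3 : ε / (2 * K) * (‖pc‖ * ‖D‖) ≤ ε / (2 * K) * ((‖pc‖ + 1) * ‖D‖) := by
              apply mul_le_mul_of_nonneg_left _ (by positivity)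
              apply mul_le_mul_of_nonneg_right (by linarith) (norm_nonneg _)
            exact mul_le_mul (by linarith) h3 (by positivity) (by positivity)
        _ = ε / 2 * ‖D‖ := by
            rw [hK]
            field_simp
    refine ⟨i0, fun k hk' D hD => ?_⟩
    by_cases hD0 : D = 0
    · refine ⟨0, 0, le_rfl, ?_⟩
      rw [hD0]
      simp
    obtain ⟨A, hA, hDA⟩ := hclos k D hD
    have hDpos : 0 < ‖D‖ := norm_pos_iff.2 hD0
    set t : ℝ := ε * ‖D‖ / ((2 + ε) * (‖A‖ + 1)) with ht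
    have htpos : 0 < t := by positivity
    obtain ⟨a', b', hb', hab'⟩ := hinter k hk' _ (hDA t htpos)
    refine ⟨a', b', hb', ?_⟩
    have htA : ‖t • A‖ ≤ ε * ‖D‖ / (2 + ε) := by
      rw [norm_smul, Real.norm_eq_abs, abs_of_pos htpos]
      calc t * ‖A‖ ≤ t * (‖A‖ + 1) := mul_le_mul_of_nonneg_left (by linarith) htpos.le
        _ = ε * ‖D‖ / (2 + ε) := by
            rw [ht]
            have h4 : ‖A‖ + 1 ≠ 0 := by positivity
            have h5 : 2 + ε ≠ 0 := by positivity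
            field_simp
    have h6 : D - (a' • M.kappa + b' • σ w₀) =
        (D + t • A - (a' • M.kappa + b' • σ w₀)) - t • A := by abel
    have h7 : ‖D + t • A‖ ≤ ‖D‖ + ‖t • A‖ := norm_add_le _ _
    rw [h6]
    calc ‖(D + t • A - (a' • M.kappa + b' • σ w₀)) - t • A‖
        ≤ ‖D + t • A - (a' • M.kappa + b' • σ w₀)‖ + ‖t • A‖ := norm_sub_le _ _
      _ ≤ ε / 2 * (‖D‖ + ‖t • A‖) + ‖t • A‖ := by
          have := mul_le_mul_of_nonneg_left h7 (by positivity : 0 ≤ ε / 2)
          linarith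
      _ = ε / 2 * ‖D‖ + (2 + ε) / 2 * ‖t • A‖ := by ring
      _ ≤ ε / 2 * ‖D‖ + (2 + ε) / 2 * (ε * ‖D‖ / (2 + ε)) := by
          have := mul_le_mul_of_nonneg_left htA (by positivity : 0 ≤ (2 + ε) / 2)
          linarith
      _ = ε * ‖D‖ := by
          have h5 : 2 + ε ≠ 0 := by positivity
          field_simp
          ring

/-- The trace of a nef system on a space `P` of classes which contains `κ`; the models are those
which have an ample class in `P`. -/
noncomputable def restrict (P : Submodule ℝ V) (hP : M.kappa ∈ P) : NefSystem P where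
  Model := {X' : M.Model // (interior (M.nef X') ∩ (P : Set V)).Nonempty}
  Val := M.Val
  kappa := ⟨M.kappa, hP⟩
  eff := {D | (D : V) ∈ M.eff}
  eff_closed := M.eff_closed.preimage continuous_subtype_val
  eff_add := fun a ha b hb => M.eff_add _ ha _ hb
  eff_smul := fun t ht a ha => M.eff_smul t ht _ ha
  nef := fun X' => {D | (D : V) ∈ M.nef X'.1}
  nef_closed := fun X' => (M.nef_closed X'.1).preimage continuous_subtype_val
  nef_add := fun X' a ha b hb => M.nef_add _ _ ha _ hb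
  nef_smul := fun X' t ht a ha => M.nef_smul _ t ht _ ha
  ample_nonempty := fun X' => by
    obtain ⟨A, hA, hAP⟩ := X'.2
    have h1 : IsOpen {D : P | (D : V) ∈ interior (M.nef X'.1)} :=
      isOpen_interior.preimage continuous_subtype_val
    have h2 : {D : P | (D : V) ∈ interior (M.nef X'.1)} ⊆ {D : P | (D : V) ∈ M.nef X'.1} := by
      intro D hD
      have hD' : (D : V) ∈ interior (M.nef X'.1) := hD
      have hD'' : (D : V) ∈ M.nef X'.1 := interior_subset hD'
      exact hD''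
    exact ⟨⟨A, hAP⟩, interior_maximal h2 h1 hA⟩
  nef_subset_eff := fun X' D hD => M.nef_subset_eff _ hD
  mult := fun X' => (M.mult X'.1).comp P.subtype
  negativity := fun X' X'' D hD => M.negativity _ _ _ hD
  nef_of_mult_eq := fun X' X'' D hD h => M.nef_of_mult_eq _ _ _ hD h
  finite_models := fun X' N hN hNint t ht => by
    obtain ⟨A, hA, hAP⟩ := X'.2
    -- `N` is big
    have hbig : (N : V) ∈ interior M.eff := by
      have hcont : Continuous fun s : ℝ => N - s • (⟨A, hAP⟩ : P) := by fun_prop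
      have hnhd : {s : ℝ | N - s • (⟨A, hAP⟩ : P) ∈ interior {D : P | (D : V) ∈ M.eff}} ∈
          𝓝 (0 : ℝ) := (isOpen_interior.preimage hcont).mem_nhds (by
            change N - (0 : ℝ) • (⟨A, hAP⟩ : P) ∈ interior {D : P | (D : V) ∈ M.eff}
            rw [zero_smul, sub_zero]
            exact hNint)
      obtain ⟨ε, hε, hball⟩ := Metric.mem_nhds_iff.1 hnhd
      have h1 : N - (ε / 2) • (⟨A, hAP⟩ : P) ∈ interior {D : P | (D : V) ∈ M.eff} := by
        apply hball
        rw [Metric.mem_ball, Real.dist_eq, sub_zero, abs_of_pos (by positivity)]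
        linarith
      have h1' := interior_subset h1
      have h2 : (N : V) - (ε / 2) • A ∈ M.eff := h1'
      have h3 : IsOpen ((fun x => ((N : V) - (ε / 2) • A) + (ε / 2) • x) ''
          interior (M.nef X'.1)) :=
        ((Homeomorph.smulOfNeZero (ε / 2) (by positivity : (ε / 2) ≠ 0)).trans
          (Homeomorph.addLeft ((N : V) - (ε / 2) • A))).isOpenMap _ isOpen_interior
      have h4 : (fun x => ((N : V) - (ε / 2) • A) + (ε / 2) • x) '' interior (M.nef X'.1) ⊆
          M.eff := by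
        rintro _ ⟨x, hx, rfl⟩
        exact M.eff_add _ h2 _ (M.eff_smul _ (by positivity) _
          (M.nef_subset_eff _ (interior_subset hx)))
      exact interior_maximal h4 h3 ⟨A, hA, by simp⟩
    obtain ⟨O, hO, hfin⟩ := M.finite_models X'.1 N hN hbig t ht
    refine ⟨Subtype.val ⁻¹' O, ?_, ?_⟩
    · have h5 : Tendsto (Subtype.val : P → V) (𝓝 ((⟨M.kappa, hP⟩ : P) + t • N))
          (𝓝 (M.kappa + t • (N : V))) := continuous_subtype_val.continuousAt
      exact h5 hO
    · refine (hfin.preimage Subtype.val_injective.injOn).subset ?_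
      rintro X'' ⟨D, hD1, hD2⟩
      exact ⟨(D : V), hD1, hD2⟩

/-- Flips directed by a three-dimensional space of classes. -/
theorem directed [FiniteDimensional ℝ V] (hk : M.kappa ∉ M.eff)
    {X : ℕ → M.Model} {R : ℕ → V →ₗ[ℝ] ℝ} (h : M.IsFlipSequence X R)
    (P : Submodule ℝ V) (h3 : Module.finrank ℝ P = 3) (hP : M.kappa ∈ P)
    (hample : ∀ k, (interior (M.nef (X k)) ∩ (P : Set V)).Nonempty)
    (hdir : ∀ k, Submodule.span ℝ (M.nef (X k) ∩ M.nef (X (k + 1)) ∩ (P : Set V)) =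
      LinearMap.ker (R k) ⊓ P) :
    ∃ (θ : V) (r : V →ₗ[ℝ] ℝ), θ ∈ P ∧ θ ∉ Submodule.span ℝ {M.kappa} ∧ (∃ D ∈ P, r D ≠ 0) ∧
      r M.kappa = 0 ∧ r θ = 0 ∧ (∃ j0, ∀ k, j0 ≤ k → ∀ D ∈ M.nef (X k), D ∈ P → 0 ≤ r D) ∧
      ∀ ε : ℝ, 0 < ε → ∃ i0, ∀ k, i0 ≤ k → ∀ D ∈ M.nef (X k), D ∈ P → ∃ a b : ℝ, 0 ≤ b ∧
        ‖D - (a • M.kappa + b • θ)‖ ≤ ε * ‖D‖ := by
  set M' := M.restrict P hP with hM'
  set X' : ℕ → M'.Model := fun k => ⟨X k, hample k⟩ with hX'
  set R' : ℕ → P →ₗ[ℝ] ℝ := fun k => (R k).comp P.subtype with hR'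
  have hseq : M'.IsFlipSequence X' R' := by
    intro k
    obtain ⟨h1, h2, h4, h5⟩ := h k
    refine ⟨?_, fun D hD => h2 _ hD, fun D hD => h4 _ hD, h5⟩
    apply le_antisymm
    · rw [Submodule.span_le]
      rintro D ⟨hD1, hD2⟩
      rw [SetLike.mem_coe, LinearMap.mem_ker]
      exact le_antisymm (h4 _ hD2) (h2 _ hD1)
    · intro D hD
      have h6 : (D : V) ∈ LinearMap.ker (R k) ⊓ P := ⟨hD, D.2⟩
      rw [← hdir k] at h6
      have h7 : Submodule.span ℝ (M.nef (X k) ∩ M.nef (X (k + 1)) ∩ (P : Set V)) ≤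
          Submodule.map P.subtype
            (Submodule.span ℝ (M'.nef (X' k) ∩ M'.nef (X' (k + 1)))) := by
        rw [Submodule.span_le]
        rintro y ⟨⟨hy1, hy2⟩, hyP⟩
        exact ⟨⟨y, hyP⟩, Submodule.subset_span ⟨hy1, hy2⟩, rfl⟩
      obtain ⟨D', hD', hDD'⟩ := h7 h6
      have : D' = D := Subtype.ext hDD'
      rwa [← this]
  have hk' : M'.kappa ∉ M'.eff := hk
  obtain ⟨θ, r, hθ, hr, hrk, hrθ, ⟨j0, hj0⟩, hlim⟩ := M'.three h3 hk' hseq
  obtain ⟨r', hr'⟩ := r.exists_extend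
  have hr'app : ∀ D : P, r' D = r D := fun D => by
    rw [← hr']; rfl
  refine ⟨θ, r', θ.2, ?_, ?_, ?_, ?_, ⟨j0, ?_⟩, ?_⟩
  · intro hmem
    apply hθ
    rw [Submodule.mem_span_singleton] at hmem ⊢
    obtain ⟨c, hc⟩ := hmem
    exact ⟨c, Subtype.ext hc⟩
  · by_contra hcon
    push Not at hcon
    apply hr
    ext D
    have := hcon D D.2
    rw [hr'app] at this
    rw [this]; rfl
  · have := hr'app M'.kappa
    rw [hrk] at this
    exact this
  · rw [hr'app, hrθ]
  · intro k hk'' D hD hDP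
    have := hj0 k hk'' ⟨D, hDP⟩ hD
    rw [← hr'app] at this
    exact this
  · intro ε hε
    obtain ⟨i0, hi0⟩ := hlim ε hε
    refine ⟨i0, fun k hk'' D hD hDP => ?_⟩
    obtain ⟨a, b, hb, hab⟩ := hi0 k hk'' ⟨D, hDP⟩ hD
    exact ⟨a, b, hb, hab⟩

end NefSystem

end Pool.Agent.Work.MP_89a3f8
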